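import Pool.Agent.W96.CL.Stm
set_option autoImplicit false

open Polynomial Filter Topology MeasureTheory

namespace W96CL

theorem cl_trace (h : S_comm) : S_trace := by
  intro A _ _ e N hTL x i L
  induction L generalizing i with
  | nil =>
    intro hN
    simp only [BB, DD, mul_one]
    exact hTL.sq i (by simp at hN; omega)
  | cons z L ih =>
    intro hN
    simp only [List.length_cons] at hN
    have ih' := ih (i + 1) (by omega)
    have hcB : Commute (e i) (BB e x (i + 2) L) :=
      (h A e N hTL x i (i + 2) L (by omega)).1 (by omega)
    have hcD : Commute (e i) (DD e x (i + 3) L) :=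
      (h A e N hTL x i (i + 3) L (by omega)).2 (by omega)
    have hsq : e i * e i = e i := hTL.sq i (by omega)
    have hup : e i * e (i + 1) * e i = e i := hTL.up i (by omega)
    simp only [BB, DD, XX]
    have e1 : i + 1 + 1 = i + 2 := rfl
    have e2 : i + 1 + 2 = i + 3 := rfl
    have e3 : i + 2 + 1 = i + 3 := rfl
    rw [e1, e2] at ih'
    rw [e1, e3]
    have hph : ph1 x z = (wF (x / z) + wT (x / z)) * (wF (x * z) + wT (x * z)) := by
      unfold ph1 wF wT; ring
    have htau : tau x z = wT (x / z) * wT (x * z) := rfl
    rw [hph, htau]
    generalize BB e x (i + 2) L = B at *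
    generalize DD e x (i + 3) L = D at *
    generalize wF (x / z) = α
    generalize wT (x / z) = β
    generalize wF (x * z) = α'
    generalize wT (x * z) = β'
    generalize e (i + 1) = E at *
    generalize e i = F at *
    have t1 : F * B * F = F * B := by
      rw [mul_assoc, ← hcB.eq, ← mul_assoc, hsq]
    have t2 : F * B * E * F = F * B := by
      rw [hcB.eq, mul_assoc B F E, mul_assoc B (F * E) F, hup]
    have t3 : F * E * B * F = F * B := by
      rw [mul_assoc (F * E) B F, ← hcB.eq, ← mul_assoc, hup]
    have t4 : F * E * B * E * F = F * D := by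
      have : F * E * B * E * F = F * (E * B * E) * F := by noncomm_ring
      rw [this, ih', ← mul_assoc, mul_assoc (F * E) D F, ← hcD.eq, ← mul_assoc, hup]
    have expand : F * ((α • (1 : A) + β • E) * B * (α' • (1 : A) + β' • E)) * F
        = (α * α') • (F * B * F) + (α * β') • (F * B * E * F) + (β * α') • (F * E * B * F)
          + (β * β') • (F * E * B * E * F) := by
      simp only [mul_add, add_mul, smul_mul_assoc, mul_smul_comm, one_mul, mul_one, smul_smul,
        smul_add, ← mul_assoc]
      module
    rw [expand, t1, t2, t3, t4, mul_add, mul_smul_comm, mul_smul_comm]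
    module

end W96CL
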